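import Pool.Agent.Run7.h630.ML.Iface

/-!
SOL: the equation `m² u - Δ u = F` in the plane, for smooth `F` of compact support.
-/

open MeasureTheory Filter Topology SchwartzMap Run7.h630.ML
open scoped FourierTransform SchwartzMap ContDiff LineDeriv Laplacian

namespace Run7.h593.ML

noncomputable section

/-- the multiplier -/
def gm (m : ℝ) (ξ : E2) : ℝ := (m ^ 2 + (2 * Real.pi) ^ 2 * ‖ξ‖ ^ 2)⁻¹

/-- the symbol -/
def sm (m : ℝ) (ξ : E2) : ℝ := m ^ 2 + (2 * Real.pi) ^ 2 * ‖ξ‖ ^ 2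

theorem gm_temp {m : ℝ} (hm : 0 < m) : (gm m).HasTemperateGrowth := by
  have h1 : gm m = fun ξ : E2 => (m ^ 2)⁻¹ * ((fun x : E2 => (1 + ‖x‖ ^ 2) ^ (-1 : ℝ)) ∘
      (fun ξ : E2 => (2 * Real.pi / m) • ξ)) ξ := by
    funext ξ
    simp only [gm, Function.comp]
    rw [Real.rpow_neg_one, norm_smul, ← mul_inv, Real.norm_eq_abs, mul_pow |2 * Real.pi / m|,
      sq_abs]
    congr 1
    field_simp
  rw [h1]
  have h2 : (fun ξ : E2 => (2 * Real.pi / m) • ξ).HasTemperateGrowth := by fun_prop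
  have h3 := (Function.hasTemperateGrowth_one_add_norm_sq_rpow E2 (-1)).comp h2
  exact (Function.HasTemperateGrowth.const _).mul h3

theorem sm_temp (m : ℝ) : (sm m).HasTemperateGrowth := by
  have : sm m = fun ξ : E2 => m ^ 2 + (2 * Real.pi) ^ 2 * ‖ξ‖ ^ 2 := rfl
  rw [this]
  exact (Function.HasTemperateGrowth.const _).add
    ((Function.HasTemperateGrowth.const _).mul (Function.hasTemperateGrowth_norm_sq E2))

theorem sm_mul_gm {m : ℝ} (hm : 0 < m) : sm m * gm m = fun _ => 1 := by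
  funext ξ
  simp only [Pi.mul_apply, sm, gm]
  exact mul_inv_cancel₀ (by positivity)

/-- the solution -/
def us (m : ℝ) (f : 𝓢(E2, ℂ)) : 𝓢(E2, ℂ) := fourierMultiplierCLM ℂ (gm m) f

theorem eqn {m : ℝ} (hm : 0 < m) (f : 𝓢(E2, ℂ)) : (m ^ 2 : ℝ) • us m f - Δ (us m f) = f := by
  have h1 : fourierMultiplierCLM ℂ (sm m) (us m f) = f := by
    unfold us
    rw [fourierMultiplierCLM_fourierMultiplierCLM_apply (sm_temp m) (gm_temp hm), sm_mul_gm hm,
      fourierMultiplierCLM_const]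
    simp
  have h2 : fourierMultiplierCLM ℂ (sm m) (us m f) =
      (m ^ 2 : ℝ) • us m f + (2 * Real.pi) ^ 2 • fourierMultiplierCLM ℂ (‖·‖ ^ 2) (us m f) := by
    have ht : (fun x : E2 => ‖x‖ ^ 2).HasTemperateGrowth := Function.hasTemperateGrowth_norm_sq E2
    have e2 : sm m = (fun _ : E2 => m ^ 2) + ((2 * Real.pi) ^ 2 • fun ξ : E2 => ‖ξ‖ ^ 2) := by
      funext ξ; simp [sm]
    have ht2 : ((2 * Real.pi) ^ 2 • fun ξ : E2 => ‖ξ‖ ^ 2).HasTemperateGrowth :=
      (Function.HasTemperateGrowth.const ((2 * Real.pi) ^ 2)).mul ht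
    rw [e2]
    have e3 : fourierMultiplierCLM ℂ ((fun _ : E2 => m ^ 2) +
        ((2 * Real.pi) ^ 2 • fun ξ : E2 => ‖ξ‖ ^ 2)) (us m f) =
        fourierMultiplierCLM ℂ (fun _ : E2 => m ^ 2) (us m f) +
        fourierMultiplierCLM ℂ ((2 * Real.pi) ^ 2 • fun ξ : E2 => ‖ξ‖ ^ 2) (us m f) := by
      rw [fourierMultiplierCLM_apply, fourierMultiplierCLM_apply, fourierMultiplierCLM_apply,
        smulLeftCLM_add (Function.HasTemperateGrowth.const _) ht2]
      simp only [_root_.add_apply]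
      exact FourierTransform.fourierInv_add _ _
    rw [e3, fourierMultiplierCLM_const, fourierMultiplierCLM_smul ht]
    rfl
  rw [laplacian_eq_fourierMultiplierCLM]
  conv_rhs => rw [← h1, h2]
  module

theorem d2_eq (u : 𝓢(E2, ℂ)) (i : Fin 2) (x : E2) :
    d2 u i x = (∂_{ev i} (∂_{ev i} u)) x := by
  have h : ∀ (v : 𝓢(E2, ℂ)) (y : E2) (t : ℝ),
      HasDerivAt (fun t : ℝ => v (y + t • ev i)) ((∂_{ev i} v) (y + t • ev i)) t := by
    intro v y t
    have h1 : HasDerivAt (fun t : ℝ => y + t • ev i) (ev i) t := by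
      simpa using ((hasDerivAt_id t).smul_const (ev i)).const_add y
    have h2 := (v.hasFDerivAt (y + t • ev i)).comp_hasDerivAt t h1
    rw [lineDerivOp_apply_eq_fderiv]
    exact h2
  unfold d2
  rw [iteratedDeriv_succ, iteratedDeriv_one]
  have h3 : deriv (fun t : ℝ => u (x + t • ev i)) = fun t => (∂_{ev i} u) (x + t • ev i) := by
    funext t; exact (h u x t).deriv
  rw [h3, (h _ x 0).deriv]
  simp

theorem lap_eq (u : 𝓢(E2, ℂ)) (x : E2) : (Δ u) x = ∑ i, d2 u i x := by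
  rw [laplacian_eq_sum (EuclideanSpace.basisFun (Fin 2) ℝ)]
  rw [_root_.sum_apply]
  refine Finset.sum_congr rfl fun i _ => ?_
  rw [d2_eq]
  simp [ev]

theorem t_SOL : S_SOL := by
  intro m hm F hF hF'
  set f : 𝓢(E2, ℂ) := hF'.toSchwartzMap hF with hf
  have hfF : (f : E2 → ℂ) = F := by ext x; rfl
  refine ⟨us m f, fun x => ?_, ?_⟩
  · have h := congrArg (fun v : 𝓢(E2, ℂ) => v x) (eqn hm f)
    simp only [_root_.sub_apply, _root_.smul_apply] at h
    rw [lap_eq, hfF] at h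
    rw [← h]
    simp
  · have h1 : ∫ x, starRingEnd ℂ (F x) * us m f x = ∫ ξ, inner ℂ (𝓕 f ξ) (𝓕 (us m f) ξ) := by
      rw [integral_inner_fourier_fourier]
      refine integral_congr_ae (ae_of_all _ fun x => ?_)
      simp only [RCLike.inner_apply, hfF]
      ring
    rw [h1, ← integral_complex_ofReal]
    refine integral_congr_ae (ae_of_all _ fun ξ => ?_)
    have h2 : 𝓕 (us m f) = smulLeftCLM ℂ (gm m) (𝓕 f) := by
      unfold us
      rw [fourierMultiplierCLM_apply]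
      exact FourierTransform.fourier_fourierInv_eq _
    have h3 : (𝓕 f) ξ = 𝓕 F ξ := by
      rw [← hfF]; rfl
    simp only
    rw [h2, smulLeftCLM_apply_apply (gm_temp hm), h3]
    simp only [RCLike.inner_apply, gm, Complex.real_smul]
    have h4 : 𝓕 F ξ * starRingEnd ℂ (𝓕 F ξ) = ((‖𝓕 F ξ‖ ^ 2 : ℝ) : ℂ) := by
      rw [Complex.mul_conj, Complex.normSq_eq_norm_sq]
    have h5 : m ^ 2 + (2 * Real.pi) ^ 2 * ‖ξ‖ ^ 2 = 4 * Real.pi ^ 2 * ‖ξ‖ ^ 2 + m ^ 2 := by ring
    rw [h5, div_eq_inv_mul]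
    push_cast at h4 ⊢
    rw [← h4]
    ring

end

end Run7.h593.ML
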