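import Pool.Agent.Run7.h630.ML.Iface

/-!
STA: stability of the massive lattice operator on the torus.
-/

open Run7.h630.ML

namespace Run7.h593.ML

noncomputable section

theorem re_conj_mul_le (a b : ℂ) :
    2 * (starRingEnd ℂ a * b).re ≤ ‖a‖ ^ 2 + ‖b‖ ^ 2 := by
  have h1 : (starRingEnd ℂ a * b).re ≤ ‖starRingEnd ℂ a * b‖ := Complex.re_le_norm _
  rw [norm_mul, RCLike.norm_conj] at h1
  nlinarith [sq_nonneg (‖a‖ - ‖b‖)]

theorem shift_sum {e : ℕ} [NeZero e] (w : ZMod e × ZMod e → ℂ) (v : ZMod e × ZMod e) :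
    2 * (∑ u, starRingEnd ℂ (w u) * w (u + v)).re ≤ 2 * ∑ u, ‖w u‖ ^ 2 := by
  have h2 : ∑ u, ‖w (u + v)‖ ^ 2 = ∑ u, ‖w u‖ ^ 2 :=
    Equiv.sum_comp (Equiv.addRight v) (fun u => ‖w u‖ ^ 2)
  calc 2 * (∑ u, starRingEnd ℂ (w u) * w (u + v)).re
      = ∑ u, 2 * (starRingEnd ℂ (w u) * w (u + v)).re := by
        rw [Complex.re_sum, Finset.mul_sum]
    _ ≤ ∑ u, (‖w u‖ ^ 2 + ‖w (u + v)‖ ^ 2) :=
        Finset.sum_le_sum fun u _ => re_conj_mul_le _ _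
    _ = 2 * ∑ u, ‖w u‖ ^ 2 := by rw [Finset.sum_add_distrib, h2]; ring

theorem coercive {e : ℕ} [NeZero e] (x0 : ℝ) (w : ZMod e × ZMod e → ℂ) :
    x0 * ∑ u, ‖w u‖ ^ 2 ≤ (∑ u, starRingEnd ℂ (w u) * Kt x0 w u).re := by
  have h : ∑ u, starRingEnd ℂ (w u) * Kt x0 w u =
      (4 + x0) * ((∑ u, ‖w u‖ ^ 2 : ℝ) : ℂ) - ∑ u, starRingEnd ℂ (w u) * w (u + (1, 0))
        - ∑ u, starRingEnd ℂ (w u) * w (u + (-1, 0)) - ∑ u, starRingEnd ℂ (w u) * w (u + (0, 1))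
        - ∑ u, starRingEnd ℂ (w u) * w (u + (0, -1)) := by
    rw [Complex.ofReal_sum, Finset.mul_sum, ← Finset.sum_sub_distrib, ← Finset.sum_sub_distrib,
      ← Finset.sum_sub_distrib, ← Finset.sum_sub_distrib]
    refine Finset.sum_congr rfl fun u _ => ?_
    have h1 : u - (1, 0) = u + (-1, 0) := by
      rw [sub_eq_add_neg]; congr 1; ext <;> simp
    have h2 : u - (0, 1) = u + (0, -1) := by
      rw [sub_eq_add_neg]; congr 1; ext <;> simp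
    have h3 : starRingEnd ℂ (w u) * w u = ((‖w u‖ ^ 2 : ℝ) : ℂ) := by
      rw [← Complex.normSq_eq_conj_mul_self, Complex.normSq_eq_norm_sq]
    unfold Kt
    rw [h1, h2]
    linear_combination (4 + (x0 : ℂ)) * h3
  rw [h]
  have e1 := shift_sum w (1, 0)
  have e2 := shift_sum w (-1, 0)
  have e3 := shift_sum w (0, 1)
  have e4 := shift_sum w (0, -1)
  have h5 : ((4 + x0 : ℂ) * ((∑ u, ‖w u‖ ^ 2 : ℝ) : ℂ)).re = (4 + x0) * ∑ u, ‖w u‖ ^ 2 := by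
    have : (4 + x0 : ℂ) * ((∑ u, ‖w u‖ ^ 2 : ℝ) : ℂ) =
        (((4 + x0) * ∑ u, ‖w u‖ ^ 2 : ℝ) : ℂ) := by push_cast; ring
    rw [this, Complex.ofReal_re]
  simp only [Complex.sub_re]
  rw [h5]
  linarith

theorem cs {ι : Type*} [Fintype ι] (a b : ι → ℂ) :
    ‖∑ u, starRingEnd ℂ (a u) * b u‖ ≤
      Real.sqrt (∑ u, ‖a u‖ ^ 2) * Real.sqrt (∑ u, ‖b u‖ ^ 2) := by
  calc ‖∑ u, starRingEnd ℂ (a u) * b u‖ ≤ ∑ u, ‖a u‖ * ‖b u‖ := by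
        refine (norm_sum_le _ _).trans (Finset.sum_le_sum fun u _ => ?_)
        rw [norm_mul, RCLike.norm_conj]
    _ ≤ _ := Real.sum_mul_le_sqrt_mul_sqrt _ _ _

theorem t_STA : S_STA := by
  intro e _ x0 hx0 f w
  set A := Real.sqrt (∑ u, ‖w u‖ ^ 2) with hA
  set B := Real.sqrt (∑ u, ‖Kt x0 w u‖ ^ 2) with hB
  have hA0 : 0 ≤ A := Real.sqrt_nonneg _
  have hB0 : 0 ≤ B := Real.sqrt_nonneg _
  have hA2 : A ^ 2 = ∑ u, ‖w u‖ ^ 2 :=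
    Real.sq_sqrt (Finset.sum_nonneg fun u _ => by positivity)
  have h1 : x0 * A ^ 2 ≤ A * B := by
    rw [hA2]
    refine (coercive x0 w).trans ((Complex.re_le_norm _).trans ?_)
    exact cs w (Kt x0 w)
  have h2 : A ≤ x0⁻¹ * B := by
    rcases hA0.eq_or_lt with h0 | h0
    · rw [← h0]; positivity
    · rw [le_inv_mul_iff₀ hx0]
      nlinarith
  refine (cs f w).trans ?_
  rw [mul_comm x0⁻¹, mul_assoc]
  exact mul_le_mul_of_nonneg_left h2 (Real.sqrt_nonneg _)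

end

end Run7.h593.ML
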