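import Pool.Agent.Run7.h630.ML.Iface

/-!
SUM: a bound of a lattice sum, uniform in the spacing.
-/

open Run7.h630.ML

namespace Run7.h593.ML

noncomputable section

/-- one factor -/
def q (l : ℕ) (a : ℤ) : ℝ := ((1 + |(a : ℝ)| / l) ^ 2)⁻¹

theorem q_nonneg (l : ℕ) (a : ℤ) : 0 ≤ q l a := by unfold q; positivity

theorem tele {l : ℕ} (hl : 1 ≤ l) (n : ℕ) :
    ∑ a ∈ Finset.range n, ((1 + ((a : ℝ) + 1) / l) ^ 2)⁻¹ ≤ l * (1 - (l : ℝ) / (l + n)) := by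
  have hl' : (1 : ℝ) ≤ l := by exact_mod_cast hl
  have hl0 : (0 : ℝ) < l := by linarith
  induction n with
  | zero => simp [hl0.ne']
  | succ n ih =>
    rw [Finset.sum_range_succ]
    have hn : (0 : ℝ) ≤ n := Nat.cast_nonneg n
    have h1 : ((1 + ((n : ℝ) + 1) / l) ^ 2)⁻¹ = (l : ℝ) ^ 2 / (l + n + 1) ^ 2 := by
      have : 1 + ((n : ℝ) + 1) / l = (l + n + 1) / l := by field_simp; ring
      rw [this, div_pow, inv_div]
    have h2 : (l : ℝ) ^ 2 / (l + n + 1) ^ 2 ≤ l * ((l : ℝ) / (l + n)) - l * (l / (l + n + 1)) := by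
      have h3 : l * ((l : ℝ) / (l + n)) - l * (l / (l + n + 1)) =
          (l : ℝ) ^ 2 / ((l + n) * (l + n + 1)) := by
        field_simp; ring
      rw [h3]
      apply div_le_div_of_nonneg_left (by positivity) (by positivity)
      nlinarith
    rw [h1]
    push_cast
    have h4 : (l : ℝ) + (n + 1) = l + n + 1 := by ring
    rw [h4]
    nlinarith

theorem nat_part {l : ℕ} (hl : 1 ≤ l) :
    Summable (fun a : ℕ => ((1 + ((a : ℝ) + 1) / l) ^ 2)⁻¹) ∧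
      ∑' a : ℕ, ((1 + ((a : ℝ) + 1) / l) ^ 2)⁻¹ ≤ (l : ℝ) := by
  have hb : ∀ n, ∑ a ∈ Finset.range n, ((1 + ((a : ℝ) + 1) / l) ^ 2)⁻¹ ≤ (l : ℝ) := by
    intro n
    refine (tele hl n).trans ?_
    have : (0 : ℝ) ≤ (l : ℝ) / (l + n) := by positivity
    have hl0 : (0 : ℝ) ≤ l := Nat.cast_nonneg l
    nlinarith
  exact ⟨summable_of_sum_range_le (fun n => by positivity) hb,
    Real.tsum_le_of_sum_range_le (fun n => by positivity) hb⟩

theorem int_part {l : ℕ} (hl : 1 ≤ l) :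
    Summable (q l) ∧ ∑' a : ℤ, q l a ≤ 3 * l := by
  have hl' : (1 : ℝ) ≤ l := by exact_mod_cast hl
  obtain ⟨hs, ht⟩ := nat_part hl
  have e1 : ∀ a : ℕ, q l ((a : ℤ) + 1) = ((1 + ((a : ℝ) + 1) / l) ^ 2)⁻¹ := by
    intro a
    unfold q
    have : |(((a : ℤ) + 1 : ℤ) : ℝ)| = (a : ℝ) + 1 := by
      push_cast
      exact abs_of_nonneg (by positivity)
    rw [this]
  have e2 : ∀ a : ℕ, q l (-((a : ℤ) + 1)) = ((1 + ((a : ℝ) + 1) / l) ^ 2)⁻¹ := by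
    intro a
    rw [← e1 a]
    unfold q
    congr 4
    push_cast
    rw [abs_neg]
  have s1 : Summable fun a : ℕ => q l ((a : ℤ) + 1) := by simp_rw [e1]; exact hs
  have s2 : Summable fun a : ℕ => q l (-((a : ℤ) + 1)) := by simp_rw [e2]; exact hs
  have s0 : Summable fun a : ℕ => q l (a : ℤ) := by
    rw [← summable_nat_add_iff 1]
    simpa using s1
  have hsum : Summable (q l) := Summable.of_nat_of_neg_add_one s0 s2
  refine ⟨hsum, ?_⟩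
  rw [tsum_of_nat_of_neg_add_one s0 s2]
  have h0 : ∑' a : ℕ, q l (a : ℤ) = q l 0 + ∑' a : ℕ, q l ((a : ℤ) + 1) := by
    rw [s0.tsum_eq_zero_add]
    simp
  rw [h0]
  simp_rw [e1, e2]
  have hq0 : q l 0 = 1 := by simp [q]
  rw [hq0]
  linarith

theorem pt_norm (l : ℕ) (x : ℤ × ℤ) : |(x.1 : ℝ)| / l ≤ ‖pt l x‖ ∧ |(x.2 : ℝ)| / l ≤ ‖pt l x‖ := by
  have h := fun i => PiLp.norm_apply_le (pt l x) i
  have h0 := h 0
  have h1 := h 1
  simp only [pt, Real.norm_eq_abs] at h0 h1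
  simp only [PiLp.toLp_apply, Matrix.cons_val_zero, Matrix.cons_val_one, abs_div,
    Nat.abs_cast] at h0 h1
  exact ⟨h0, h1⟩

theorem le_prod {l : ℕ} (x : ℤ × ℤ) :
    ((1 + ‖pt l x‖) ^ 4)⁻¹ ≤ q l x.1 * q l x.2 := by
  obtain ⟨h1, h2⟩ := pt_norm l x
  unfold q
  rw [← mul_inv]
  have a1 : 0 ≤ |(x.1 : ℝ)| / l := by positivity
  have a2 : 0 ≤ |(x.2 : ℝ)| / l := by positivity
  apply inv_anti₀ (by positivity)
  calc (1 + |(x.1 : ℝ)| / l) ^ 2 * (1 + |(x.2 : ℝ)| / l) ^ 2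
      ≤ (1 + ‖pt l x‖) ^ 2 * (1 + ‖pt l x‖) ^ 2 := by gcongr
    _ = _ := by ring

theorem t_SUM : S_SUM := by
  refine ⟨9, by norm_num, fun l hl => ?_⟩
  obtain ⟨hs, ht⟩ := int_part hl
  have hp : Summable fun x : ℤ × ℤ => q l x.1 * q l x.2 :=
    hs.mul_of_nonneg hs (q_nonneg l) (q_nonneg l)
  have hS : Summable (fun x : ℤ × ℤ => ((1 + ‖pt l x‖) ^ 4)⁻¹) :=
    Summable.of_nonneg_of_le (fun x => by positivity) le_prod hp
  refine ⟨hS, ?_⟩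
  refine (hS.tsum_le_tsum le_prod hp).trans ?_
  rw [← hs.tsum_mul_tsum hs hp]
  have h0 : 0 ≤ ∑' a : ℤ, q l a := tsum_nonneg (q_nonneg l)
  have hl' : (0 : ℝ) ≤ l := Nat.cast_nonneg l
  nlinarith

end

end Run7.h593.ML
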